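import Mathlib
set_option autoImplicit false
namespace Pool.Agent.LibTS
open Polynomial

theorem mem_of_integral (V : ValuationSubring ℂ) (z : ℂ) (hz : IsIntegral ℤ z) : z ∈ V := by
  have h1 : IsIntegral V z := hz.tower_top
  obtain ⟨y, hy⟩ := IsIntegrallyClosed.isIntegral_iff.mp h1
  rw [← hy]
  exact y.2

/-- The place of ℂ given by a root of the minimal polynomial of `θ` modulo `ℓ`. -/
theorem exists_val (θ : ℂ) (hθ : IsIntegral ℤ θ) (ℓ : ℕ) (hℓ : ℓ.Prime) (t : ZMod ℓ)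
    (ht : ((minpoly ℤ θ).map (Int.castRingHom (ZMod ℓ))).eval t = 0) :
    ∃ V : ValuationSubring ℂ, ∀ f : ℤ[X], (f.map (Int.castRingHom (ZMod ℓ))).eval t = 0 →
      aeval θ f ∈ V.nonunits := by
  have : Fact ℓ.Prime := ⟨hℓ⟩
  set φ : ℤ[X] →+* ℂ := (aeval θ : ℤ[X] →ₐ[ℤ] ℂ).toRingHom with hφ
  set ψ : ℤ[X] →+* ZMod ℓ := (evalRingHom t).comp (mapRingHom (Int.castRingHom (ZMod ℓ))) with hψ
  have hker : RingHom.ker φ ≤ RingHom.ker ψ := by
    intro f hf
    rw [RingHom.mem_ker] at hf ⊢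
    have h1 : minpoly ℤ θ ∣ f := minpoly.isIntegrallyClosed_dvd hθ hf
    obtain ⟨g, rfl⟩ := h1
    rw [map_mul]
    have : ψ (minpoly ℤ θ) = 0 := ht
    rw [this, zero_mul]
  set I : Ideal φ.range := Ideal.map φ.rangeRestrict (RingHom.ker ψ) with hI
  have hIne : I ≠ ⊤ := by
    intro hc
    have h1 : Ideal.comap φ.rangeRestrict I = RingHom.ker ψ ⊔ Ideal.comap φ.rangeRestrict ⊥ :=
      Ideal.comap_map_of_surjective _ φ.rangeRestrict_surjective _
    rw [hc, Ideal.comap_top] at h1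
    have h2 : Ideal.comap φ.rangeRestrict ⊥ ≤ RingHom.ker ψ := by
      intro f hf
      apply hker
      have h3 : φ.rangeRestrict f = 0 := hf
      have h4 := congrArg Subtype.val h3
      exact h4
    rw [sup_eq_left.mpr h2] at h1
    exact (RingHom.ker_ne_top ψ) h1.symm
  obtain ⟨V, hV1, hV2⟩ := Ideal.image_subset_nonunits_valuationSubring I hIne
  refine ⟨V, fun f hf => hV2 ⟨φ.rangeRestrict f, Ideal.mem_map_of_mem _ ?_, rfl⟩⟩
  exact hf

end Pool.Agent.LibTS
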