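import Pool.Agent.LibTS.NT
set_option autoImplicit false
namespace Pool.Agent.LibTS
open Polynomial ComplexConjugate

/-- The residue map of a place on the algebraic integers. -/
noncomputable def rho (V : ValuationSubring ℂ) : integralClosure ℤ ℂ →+* IsLocalRing.ResidueField V :=
  (IsLocalRing.residue V).comp
    { toFun := fun z => ⟨z.1, mem_of_integral V z.1 z.2⟩
      map_one' := rfl
      map_mul' := fun _ _ => rfl
      map_zero' := rfl
      map_add' := fun _ _ => rfl }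

theorem rho_eq_zero (V : ValuationSubring ℂ) (z : integralClosure ℤ ℂ) :
    rho V z = 0 ↔ (z : ℂ) ∈ V.nonunits := by
  have h1 : rho V z = IsLocalRing.residue V ⟨z.1, mem_of_integral V z.1 z.2⟩ := rfl
  rw [h1, IsLocalRing.residue_eq_zero_iff, ← ValuationSubring.coe_mem_nonunits_iff]

theorem charP_res (V : ValuationSubring ℂ) (ℓ : ℕ) (hℓ : ℓ.Prime) (h : (ℓ : ℂ) ∈ V.nonunits) :
    CharP (IsLocalRing.ResidueField V) ℓ := by
  rw [CharP.charP_iff_prime_eq_zero hℓ]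
  have h1 : rho V ((ℓ : ℕ) : integralClosure ℤ ℂ) = 0 := (rho_eq_zero V _).mpr (by simpa using h)
  rwa [map_natCast] at h1

theorem exists_place {M : ℕ} (ω : Fin M → ℂ) (hω : ∀ a, IsIntegral ℤ (ω a)) (h0 : ∀ a, ω a ≠ 0)
    (q : ℕ) (hq : 0 < q) (N : ℕ) :
    ∃ ℓ : ℕ, N < ℓ ∧ ℓ.Prime ∧ ℓ % 4 = 3 ∧ q ^ ((ℓ - 1) / 2) ≡ 1 [MOD ℓ] ∧
      ∃ V : ValuationSubring ℂ, (ℓ : ℂ) ∈ V.nonunits ∧ (∀ a, ω a ∉ V.nonunits) ∧
        ∀ a b, ω a ^ ((ℓ - 1) / 2) - ω b ^ ((ℓ - 1) / 2) ∈ V.nonunits →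
          (‖ω b‖ : ℂ) * ω a = ‖ω a‖ * ω b := by
  classical
  -- the real numbers
  set Y : Finset ℝ := (Finset.univ.image fun a => 2 * (ω a).re) ∪
    (Finset.univ.image fun a => 2 * (ω a).im) ∪ (Finset.univ.image fun a => Real.sqrt ‖ω a‖) ∪
    {Real.sqrt q} with hY
  have hY1 : ∀ a, 2 * (ω a).re ∈ Y := fun a => by
    simp only [hY, Finset.mem_union, Finset.mem_image, Finset.mem_univ, true_and]
    exact Or.inl (Or.inl (Or.inl ⟨a, rfl⟩))
  have hY2 : ∀ a, 2 * (ω a).im ∈ Y := fun a => by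
    simp only [hY, Finset.mem_union, Finset.mem_image, Finset.mem_univ, true_and]
    exact Or.inl (Or.inl (Or.inr ⟨a, rfl⟩))
  have hY3 : ∀ a, Real.sqrt ‖ω a‖ ∈ Y := fun a => by
    simp only [hY, Finset.mem_union, Finset.mem_image, Finset.mem_univ, true_and]
    exact Or.inl (Or.inr ⟨a, rfl⟩)
  have hY4 : Real.sqrt q ∈ Y := by simp [hY]
  have hYi : ∀ x ∈ Y, IsIntegral ℤ x := by
    intro x hx
    simp only [hY, Finset.mem_union, Finset.mem_image, Finset.mem_univ, true_and,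
      Finset.mem_singleton] at hx
    rcases hx with ((⟨a, rfl⟩ | ⟨a, rfl⟩) | ⟨a, rfl⟩) | rfl
    · exact isIntegral_two_re (hω a)
    · exact isIntegral_two_im (hω a)
    · exact isIntegral_sqrt (isIntegral_norm (hω a)) (norm_nonneg _)
    · exact isIntegral_sqrt (isIntegral_natCast q) (Nat.cast_nonneg _)
  have hYalg : ∀ x ∈ Y, IsAlgebraic ℚ x := fun x hx => ((hYi x hx).tower_top (A := ℚ)).isAlgebraic
  obtain ⟨θ, hθ, hrep⟩ := exists_prim Y hYalg
  choose D hD u hu using hrep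
  -- the nonzero algebraic integers
  set Z : Finset ℂ := ((Finset.univ.image fun a => ω a) ∪
    (Finset.univ.image fun ab : Fin M × Fin M => conj (ω ab.1) * ω ab.2 - conj (ω ab.2) * ω ab.1)).filter
      (fun z => z ≠ 0) with hZ
  have hZi : ∀ z ∈ Z, IsIntegral ℤ z := by
    intro z hz
    simp only [hZ, Finset.mem_filter, Finset.mem_union, Finset.mem_image, Finset.mem_univ,
      true_and] at hz
    rcases hz with ⟨⟨a, rfl⟩ | ⟨ab, rfl⟩, _⟩
    · exact hω a
    · exact ((isIntegral_conj (hω _)).mul (hω _)).sub ((isIntegral_conj (hω _)).mul (hω _))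
  have hZ0 : ∀ z ∈ Z, z ≠ 0 := fun z hz => (Finset.mem_filter.mp hz).2
  have hC := fun z (hz : z ∈ Z) => exists_int_mult z (hZi z hz) (hZ0 z hz)
  choose C hC0 w hwi hw using hC
  set N' : ℕ := N + 2 + q + ∑ x : Y, (D x.1 x.2).natAbs + ∑ z : Z, (C z.1 z.2).natAbs with hN'
  obtain ⟨ℓ, hℓN, hℓ, hℓ3, t, ht⟩ := exists_prime θ hθ N'
  have hℓF : Fact ℓ.Prime := ⟨hℓ⟩
  have hDℓ : ∀ x (hx : x ∈ Y), ¬ (ℓ : ℤ) ∣ D x hx := by
    intro x hx hc
    have h1 : (ℓ : ℤ).natAbs ≤ (D x hx).natAbs := Nat.le_of_dvd (Int.natAbs_pos.mpr (hD x hx))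
      (Int.natAbs_dvd_natAbs.mpr hc)
    have h2 : (D x hx).natAbs ≤ ∑ x : Y, (D x.1 x.2).natAbs :=
      Finset.single_le_sum (f := fun x : Y => (D x.1 x.2).natAbs) (fun _ _ => Nat.zero_le _)
        (Finset.mem_univ (⟨x, hx⟩ : Y))
    rw [Int.natAbs_natCast] at h1
    omega
  have hCℓ : ∀ z (hz : z ∈ Z), ¬ (ℓ : ℤ) ∣ C z hz := by
    intro z hz hc
    have h1 : (ℓ : ℤ).natAbs ≤ (C z hz).natAbs := Nat.le_of_dvd (Int.natAbs_pos.mpr (hC0 z hz))
      (Int.natAbs_dvd_natAbs.mpr hc)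
    have h2 : (C z hz).natAbs ≤ ∑ z : Z, (C z.1 z.2).natAbs :=
      Finset.single_le_sum (f := fun z : Z => (C z.1 z.2).natAbs) (fun _ _ => Nat.zero_le _)
        (Finset.mem_univ (⟨z, hz⟩ : Z))
    rw [Int.natAbs_natCast] at h1
    omega
  have hmin : minpoly ℤ (θ : ℂ) = minpoly ℤ θ := by
    have := minpoly.algebraMap_eq (A := ℤ) (algebraMap ℝ ℂ).injective θ
    exact this
  obtain ⟨V, hV⟩ := exists_val (θ : ℂ) (integral_ofReal hθ) ℓ hℓ t (by rw [hmin]; exact ht)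
  set κ := IsLocalRing.ResidueField V with hκ
  have hℓV : (ℓ : ℂ) ∈ V.nonunits := by
    have := hV (Polynomial.C (ℓ : ℤ)) (by simp)
    simpa using this
  have hch : CharP κ ℓ := charP_res V ℓ hℓ hℓV
  set ρ := rho V with hρ
  -- residues of the real numbers of Y
  have hreal : ∀ x (hx : x ∈ Y) (r : integralClosure ℤ ℂ), (r : ℂ) = (x : ℂ) → (ρ r) ^ ℓ = ρ r := by
    intro x hx r hr
    obtain ⟨n, hn⟩ := ZMod.intCast_surjective (((u x hx).map (Int.castRingHom (ZMod ℓ))).eval t)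
    have h1 : aeval (θ : ℂ) (u x hx - Polynomial.C n) ∈ V.nonunits := hV _ (by
      rw [Polynomial.map_sub, eval_sub, Polynomial.map_C, eval_C, eq_intCast, hn, sub_self])
    rw [map_sub, aeval_C, eq_intCast] at h1
    have h2 : aeval (θ : ℂ) (u x hx) = (D x hx : ℂ) * (r : ℂ) := by
      rw [hr]
      have := congrArg (fun y : ℝ => (y : ℂ)) (hu x hx)
      simp only [Complex.ofReal_mul, Complex.ofReal_intCast] at this
      rw [this]
      have e := aeval_algebraMap_apply ℂ θ (u x hx)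
      exact e
    rw [h2] at h1
    have h3 : ρ ((D x hx : integralClosure ℤ ℂ) * r - (n : integralClosure ℤ ℂ)) = 0 := by
      rw [hρ, rho_eq_zero]
      push_cast
      exact h1
    rw [map_sub, map_mul, map_intCast, map_intCast, sub_eq_zero] at h3
    exact res_real ℓ hℓ (ρ r) (D x hx) n (hDℓ x hx) h3
  -- residues of the nonzero algebraic integers of Z
  have hnz : ∀ z (hz : z ∈ Z) (r : integralClosure ℤ ℂ), (r : ℂ) = z → ρ r ≠ 0 := by
    intro z hz r hr hc
    have h1 : r * ⟨w z hz, hwi z hz⟩ = ((C z hz : ℤ) : integralClosure ℤ ℂ) := by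
      apply Subtype.ext
      push_cast
      rw [hr]
      exact hw z hz
    have h2 := congrArg ρ h1
    rw [map_mul, hc, zero_mul, map_intCast] at h2
    exact hCℓ z hz ((CharP.intCast_eq_zero_iff κ ℓ _).mp h2.symm)
  obtain ⟨e, he⟩ : ∃ e, ℓ = 2 * e + 1 := ⟨(ℓ - 1) / 2, by omega⟩
  have hee : (ℓ - 1) / 2 = e := by omega
  have heo : Odd e := by
    rw [Nat.odd_iff]
    omega
  have hℓ2 : 2 < ℓ := by omega
  have two0 : (2 : κ) ≠ 0 := by
    intro hc
    have : ((2 : ℕ) : κ) = 0 := by exact_mod_cast hc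
    rw [CharP.cast_eq_zero_iff κ ℓ] at this
    exact absurd (Nat.le_of_dvd (by norm_num) this) (by omega)
  have two_pow : (2 : κ) ^ ℓ = 2 := by
    have := frobenius_def (R := κ) ℓ (2 : κ)
    rw [← this, map_ofNat]
  set W : Fin M → integralClosure ℤ ℂ := fun a => ⟨ω a, hω a⟩ with hW
  set Wc : Fin M → integralClosure ℤ ℂ := fun a => ⟨conj (ω a), isIntegral_conj (hω a)⟩ with hWc
  set ii : integralClosure ℤ ℂ := ⟨Complex.I, isIntegral_I⟩ with hii
  set sqq : integralClosure ℤ ℂ := ⟨((Real.sqrt q : ℝ) : ℂ), integral_ofReal (hYi _ hY4)⟩ with hsq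
  set s : Fin M → integralClosure ℤ ℂ :=
    fun a => ⟨((Real.sqrt ‖ω a‖ : ℝ) : ℂ), integral_ofReal (hYi _ (hY3 a))⟩ with hs
  set x1 : Fin M → integralClosure ℤ ℂ :=
    fun a => ⟨((2 * (ω a).re : ℝ) : ℂ), integral_ofReal (hYi _ (hY1 a))⟩ with hx1
  set x2 : Fin M → integralClosure ℤ ℂ :=
    fun a => ⟨((2 * (ω a).im : ℝ) : ℂ), integral_ofReal (hYi _ (hY2 a))⟩ with hx2
  -- relations
  have r1 : ∀ a, W a + W a = x1 a + ii * x2 a := by
    intro a
    apply Subtype.ext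
    push_cast [hW, hx1, hx2, hii]
    have := Complex.re_add_im (ω a)
    linear_combination (-2) * this
  have r2 : ∀ a, Wc a + Wc a = x1 a - ii * x2 a := by
    intro a
    apply Subtype.ext
    push_cast [hWc, hx1, hx2, hii]
    have h1 := Complex.re_add_im (conj (ω a))
    rw [Complex.conj_re, Complex.conj_im] at h1
    push_cast at h1
    linear_combination (-2) * h1
  have r3 : ii * ii = -1 := by
    apply Subtype.ext
    push_cast [hii]
    exact Complex.I_mul_I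
  have r4 : sqq * sqq = (q : integralClosure ℤ ℂ) := by
    apply Subtype.ext
    push_cast [hsq]
    rw [← Complex.ofReal_mul, Real.mul_self_sqrt (Nat.cast_nonneg _)]
    simp
  have r5 : ∀ a, s a * s a * (s a * s a) = W a * Wc a := by
    intro a
    apply Subtype.ext
    push_cast [hs, hW, hWc]
    rw [← Complex.ofReal_mul, Real.mul_self_sqrt (norm_nonneg _), Complex.mul_conj,
      ← Complex.ofReal_mul, Complex.normSq_eq_norm_sq, sq]
  -- residues
  have c1 : ρ ii ^ 2 = -1 := by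
    rw [pow_two, ← map_mul, r3, map_neg, map_one]
  have c2 : ρ ii ^ ℓ = - ρ ii := by
    rw [he, pow_succ, pow_mul, c1, heo.neg_one_pow]
    ring
  have c3 : ∀ a, (ρ (W a)) ^ ℓ = ρ (Wc a) := by
    intro a
    have h1 : (2 : κ) * ρ (W a) = ρ (x1 a) + ρ ii * ρ (x2 a) := by
      have := congrArg ρ (r1 a)
      rwa [map_add, map_add, map_mul, ← two_mul] at this
    have h2 : (2 : κ) * ρ (Wc a) = ρ (x1 a) - ρ ii * ρ (x2 a) := by
      have := congrArg ρ (r2 a)
      rwa [map_add, map_sub, map_mul, ← two_mul] at this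
    have h3 : (2 : κ) * (ρ (W a)) ^ ℓ = 2 * ρ (Wc a) := by
      calc (2 : κ) * (ρ (W a)) ^ ℓ = (2 * ρ (W a)) ^ ℓ := by rw [mul_pow, two_pow]
        _ = (ρ (x1 a) + ρ ii * ρ (x2 a)) ^ ℓ := by rw [h1]
        _ = ρ (x1 a) ^ ℓ + (ρ ii * ρ (x2 a)) ^ ℓ := add_pow_char _ _ ℓ
        _ = ρ (x1 a) - ρ ii * ρ (x2 a) := by
          rw [mul_pow, c2, hreal _ (hY1 a) (x1 a) rfl, hreal _ (hY2 a) (x2 a) rfl]
          ring
        _ = 2 * ρ (Wc a) := h2.symm
    exact mul_left_cancel₀ two0 h3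
  have hWZ : ∀ a, ω a ∈ Z := fun a => by
    simp only [hZ, Finset.mem_filter, Finset.mem_union, Finset.mem_image, Finset.mem_univ,
      true_and]
    exact ⟨Or.inl ⟨a, rfl⟩, h0 a⟩
  have c4 : ∀ a, ρ (W a) ≠ 0 := fun a => hnz _ (hWZ a) (W a) rfl
  have c5 : ∀ a, ρ (Wc a) ≠ 0 := fun a => by
    rw [← c3]
    exact pow_ne_zero _ (c4 a)
  have c6 : ∀ a, ρ (s a) ≠ 0 := fun a hc => by
    have := congrArg ρ (r5 a)
    simp only [map_mul, hc, zero_mul] at this
    exact (mul_ne_zero (c4 a) (c5 a)) this.symm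
  have c7 : ∀ a, ρ (s a) ^ (2 * e) = 1 := fun a => by
    have h1 := hreal _ (hY3 a) (s a) rfl
    rw [he, pow_succ] at h1
    have h2 : ρ (s a) ^ (2 * e) * ρ (s a) = 1 * ρ (s a) := by rw [h1, one_mul]
    exact mul_right_cancel₀ (c6 a) h2
  have hqκ : (q : κ) ≠ 0 := by
    intro hc
    rw [CharP.cast_eq_zero_iff κ ℓ] at hc
    exact absurd (Nat.le_of_dvd hq hc) (by omega)
  have c8 : (q : κ) ^ e = 1 := by
    have h1 := hreal _ hY4 sqq rfl
    have h2 : ρ sqq * ρ sqq = q := by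
      rw [← map_mul, r4, map_natCast]
    have h3 : ρ sqq ≠ 0 := by
      intro hc
      rw [hc, zero_mul] at h2
      exact hqκ h2.symm
    rw [he, pow_succ] at h1
    have h4 : ρ sqq ^ (2 * e) * ρ sqq = 1 * ρ sqq := by rw [h1, one_mul]
    have h5 := mul_right_cancel₀ h3 h4
    rw [← h2, ← pow_two, ← pow_mul]
    exact h5
  refine ⟨ℓ, by omega, hℓ, hℓ3, ?_, V, hℓV, ?_, ?_⟩
  · rw [hee]
    have h1 : ((q ^ e : ℕ) : κ) = ((1 : ℕ) : κ) := by
      push_cast
      exact c8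
    exact (CharP.natCast_eq_natCast κ ℓ).mp h1
  · intro a ha
    exact c4 a ((rho_eq_zero V (W a)).mpr ha)
  · intro a b hab
    rw [hee] at hab
    have d1 : ρ (W a) ^ e = ρ (W b) ^ e := by
      have h1 : ρ (W a ^ e - W b ^ e) = 0 := (rho_eq_zero V _).mpr (by
        push_cast
        exact hab)
      rw [map_sub, map_pow, map_pow, sub_eq_zero] at h1
      exact h1
    have d2 : ρ (Wc a) * ρ (W b) = ρ (Wc b) * ρ (W a) := by
      rw [← c3, ← c3, he, pow_succ, pow_succ, pow_mul', pow_mul', d1]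
      ring
    have d3 : conj (ω a) * ω b - conj (ω b) * ω a = 0 := by
      by_contra hne
      have hm : conj (ω a) * ω b - conj (ω b) * ω a ∈ Z := by
        simp only [hZ, Finset.mem_filter, Finset.mem_union, Finset.mem_image, Finset.mem_univ,
          true_and]
        exact ⟨Or.inr ⟨(a, b), rfl⟩, hne⟩
      refine hnz _ hm (Wc a * W b - Wc b * W a) rfl ?_
      rw [map_sub, map_mul, map_mul, d2, sub_self]
    -- same line
    have na : (0 : ℝ) < ‖ω a‖ := norm_pos_iff.mpr (h0 a)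
    have nb : (0 : ℝ) < ‖ω b‖ := norm_pos_iff.mpr (h0 b)
    have d4 : ((‖ω b‖ : ℂ) * ω a) * ((‖ω b‖ : ℂ) * ω a) = ((‖ω a‖ : ℂ) * ω b) * ((‖ω a‖ : ℂ) * ω b) := by
      have e1 : conj (ω a) * ω a = (‖ω a‖ : ℂ) * ‖ω a‖ := by
        rw [mul_comm, Complex.mul_conj, Complex.normSq_eq_norm_sq]
        push_cast
        ring
      have e2 : conj (ω b) * ω b = (‖ω b‖ : ℂ) * ‖ω b‖ := by
        rw [mul_comm, Complex.mul_conj, Complex.normSq_eq_norm_sq]
        push_cast
        ring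
      calc ((‖ω b‖ : ℂ) * ω a) * ((‖ω b‖ : ℂ) * ω a) = ((‖ω b‖ : ℂ) * ‖ω b‖) * (ω a * ω a) := by ring
        _ = (conj (ω b) * ω b) * (ω a * ω a) := by rw [e2]
        _ = (conj (ω b) * ω a) * (ω a * ω b) := by ring
        _ = (conj (ω a) * ω b) * (ω a * ω b) := by rw [sub_eq_zero.mp d3]
        _ = (conj (ω a) * ω a) * (ω b * ω b) := by ring
        _ = ((‖ω a‖ : ℂ) * ‖ω a‖) * (ω b * ω b) := by rw [e1]
        _ = _ := by ring
    rcases mul_self_eq_mul_self_iff.mp d4 with h | h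
    · exact h
    · exfalso
      -- opposite rays
      have e1 : s b * s b * W a = - (s a * s a * W b) := by
        apply Subtype.ext
        push_cast [hs, hW]
        rw [← Complex.ofReal_mul, Real.mul_self_sqrt (norm_nonneg _), ← Complex.ofReal_mul,
          Real.mul_self_sqrt (norm_nonneg _)]
        exact h
      have e2 := congrArg (fun z => ρ z ^ e) e1
      simp only [map_mul, map_neg, mul_pow] at e2
      rw [heo.neg_pow, mul_pow, mul_pow, ← pow_two, ← pow_two, ← pow_mul, ← pow_mul,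
        mul_comm e 2, c7, c7, one_mul, one_mul, d1] at e2
      have e3 : (2 : κ) * ρ (W b) ^ e = 0 := by linear_combination e2
      exact (mul_ne_zero two0 (pow_ne_zero _ (c4 b))) e3

end Pool.Agent.LibTS
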