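import Mathlib
set_option autoImplicit false
namespace Pool.Agent.LibTS
open Polynomial

/-- The minimal polynomial over ℤ of a real algebraic integer takes a negative value. -/
theorem exists_neg (θ : ℝ) (hθ : IsIntegral ℤ θ) : ∃ y : ℝ, ((minpoly ℤ θ).aeval y : ℝ) < 0 := by
  by_contra hcon
  push Not at hcon
  set h : ℝ[X] := (minpoly ℤ θ).map (algebraMap ℤ ℝ) with hh
  have hval : ∀ y : ℝ, h.eval y = (minpoly ℤ θ).aeval y := fun y => by
    rw [hh, eval_map_algebraMap]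
  have hnn : ∀ y : ℝ, 0 ≤ h.eval y := fun y => by rw [hval]; exact hcon y
  have h0 : h.eval θ = 0 := by rw [hval]; exact minpoly.aeval ℤ θ
  have hmin : IsLocalMin (fun y => h.eval y) θ :=
    Filter.Eventually.of_forall fun y => by
      show h.eval θ ≤ h.eval y
      rw [h0]
      exact hnn y
  have hd : h.derivative.eval θ = 0 := by
    have := hmin.deriv_eq_zero
    rwa [Polynomial.deriv] at this
  -- separability of the minimal polynomial
  have hmq : minpoly ℚ θ = (minpoly ℤ θ).map (algebraMap ℤ ℚ) :=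
    minpoly.isIntegrallyClosed_eq_field_fractions' ℚ hθ
  have hirr : Irreducible (minpoly ℚ θ) := minpoly.irreducible (hθ.tower_top)
  have hsep : (minpoly ℚ θ).Separable := hirr.separable
  have hsepR : h.Separable := by
    have e : h = (minpoly ℚ θ).map (algebraMap ℚ ℝ) := by
      rw [hmq, Polynomial.map_map, hh]
      congr 1
    rw [e]
    exact hsep.map
  obtain ⟨a, b, hab⟩ := hsepR
  have := congrArg (fun p => p.eval θ) hab
  simp only [eval_add, eval_mul, h0, hd, mul_zero, add_zero, eval_one] at this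
  exact one_ne_zero this.symm

theorem exists_prime_factor : ∀ n : ℕ, n % 4 = 3 → ∃ p : ℕ, p.Prime ∧ p ∣ n ∧ p % 4 = 3 := by
  intro n
  induction n using Nat.strong_induction_on with
  | _ n ih =>
    intro hn
    have hn1 : n ≠ 1 := by rintro rfl; norm_num at hn
    set p := n.minFac with hp
    have hpp : p.Prime := Nat.minFac_prime hn1
    have hpd : p ∣ n := Nat.minFac_dvd n
    obtain ⟨m, hm⟩ := hpd
    have hpo : p % 4 = 1 ∨ p % 4 = 3 := by
      rcases Nat.Prime.eq_two_or_odd hpp with h2 | h2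
      · rw [h2] at hm
        omega
      · omega
    rcases hpo with h1 | h3
    · have hm3 : m % 4 = 3 := by
        have : (p * m) % 4 = ((p % 4) * (m % 4)) % 4 := Nat.mul_mod p m 4
        rw [← hm, hn, h1] at this
        omega
      have hmn : m < n := by
        rw [hm]
        have : 0 < m := by omega
        nlinarith [hpp.two_le]
      obtain ⟨r, hr, hrd, hr3⟩ := ih m hmn hm3
      exact ⟨r, hr, hrd.trans ⟨p, by rw [hm]; ring⟩, hr3⟩
    · exact ⟨p, hpp, ⟨m, hm⟩, h3⟩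

/-- Infinitely many primes `ℓ = 3 mod 4` modulo which the minimal polynomial of a real algebraic
integer has a root. -/
theorem exists_prime (θ : ℝ) (hθ : IsIntegral ℤ θ) (N : ℕ) : ∃ ℓ : ℕ, N < ℓ ∧ ℓ.Prime ∧ ℓ % 4 = 3 ∧
    ∃ t : ZMod ℓ, ((minpoly ℤ θ).map (Int.castRingHom (ZMod ℓ))).eval t = 0 := by
  obtain ⟨y, hy⟩ := exists_neg θ hθ
  set h : ℤ[X] := minpoly ℤ θ with hh
  have hmon : h.Monic := minpoly.monic hθ
  set d := h.natDegree with hd
  -- a neighbourhood
  have hcont : Continuous fun z : ℝ => (h.aeval z : ℝ) := by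
    have : (fun z : ℝ => (h.aeval z : ℝ)) = fun z => (h.map (algebraMap ℤ ℝ)).eval z := by
      funext z
      rw [eval_map_algebraMap]
    rw [this]
    exact Polynomial.continuous _
  obtain ⟨δ, hδ, hball⟩ := Metric.isOpen_iff.mp (isOpen_lt hcont continuous_const) y hy
  set m : ℕ := 4 * N.factorial with hm
  have hm4 : 4 ≤ m := by
    have := Nat.factorial_pos N
    omega
  have hmR : (4 : ℝ) ≤ m := by exact_mod_cast hm4
  obtain ⟨j, hj⟩ : ∃ j : ℕ, ((m : ℝ)⁻¹) ^ j < δ := exists_pow_lt_of_lt_one hδ (by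
    rw [inv_lt_one_iff₀]; right; linarith)
  set b : ℤ := (m : ℤ) ^ (j + 1) with hb
  have hbpos : (0 : ℝ) < (b : ℝ) := by
    rw [hb]
    push_cast
    positivity
  set a : ℤ := 1 + m * ⌊y * b / m⌋ with ha
  have hab : |(a : ℝ) / b - y| < δ := by
    have hmpos : (0 : ℝ) < m := by linarith
    have h1 : (⌊y * b / m⌋ : ℝ) ≤ y * b / m := Int.floor_le _
    have h2 : y * b / m < ⌊y * b / m⌋ + 1 := Int.lt_floor_add_one _
    have h3 : (m : ℝ) * (y * b / m) = y * b := by field_simp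
    have h4 : (a : ℝ) = 1 + m * (⌊y * b / m⌋ : ℝ) := by rw [ha]; push_cast; ring
    have h5 : (a : ℝ) - y * b ≤ 1 := by
      rw [h4]
      nlinarith
    have h6 : -(m : ℝ) < (a : ℝ) - y * b := by
      rw [h4]
      nlinarith
    have h7 : |(a : ℝ) - y * b| ≤ m := abs_le.mpr ⟨by linarith, by linarith⟩
    have h8 : (a : ℝ) / b - y = ((a : ℝ) - y * b) / b := by field_simp
    rw [h8, abs_div, abs_of_pos hbpos, div_lt_iff₀ hbpos]
    refine lt_of_le_of_lt h7 ?_
    have h9 : (b : ℝ) = (m : ℝ) ^ j * m := by rw [hb]; push_cast; ring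
    have h10 : 1 < δ * (m : ℝ) ^ j := by
      have h11 : (0 : ℝ) < (m : ℝ) ^ j := by positivity
      have h12 : ((m : ℝ)⁻¹) ^ j * (m : ℝ) ^ j = 1 := by
        rw [← mul_pow, inv_mul_cancel₀ hmpos.ne', one_pow]
      calc (1 : ℝ) = ((m : ℝ)⁻¹) ^ j * (m : ℝ) ^ j := h12.symm
        _ < δ * (m : ℝ) ^ j := mul_lt_mul_of_pos_right hj h11
    rw [h9]
    nlinarith
  have hneg : (h.aeval ((a : ℝ) / b) : ℝ) < 0 := hball (by
    rw [Metric.mem_ball, Real.dist_eq]
    exact hab)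
  set H : ℤ := (scaleRoots h b).eval a with hH
  have hHR : (H : ℝ) = (b : ℝ) ^ d * h.aeval ((a : ℝ) / b) := by
    have e := scaleRoots_eval₂_mul (p := h) (Int.castRingHom ℝ) ((a : ℝ) / b) b
    rw [eq_intCast, mul_div_cancel₀ _ hbpos.ne'] at e
    have e2 : eval₂ (Int.castRingHom ℝ) (a : ℝ) (scaleRoots h b) = (H : ℝ) := by
      rw [hH, ← eq_intCast (Int.castRingHom ℝ) (eval a (scaleRoots h b)), ← eval₂_at_apply]
      rfl
    rw [← e2, e]
    rfl
  have hHneg : H < 0 := by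
    have : (H : ℝ) < 0 := by
      rw [hHR]
      exact mul_neg_of_pos_of_neg (by positivity) hneg
    exact_mod_cast this
  -- H = 1 mod m
  have hmb : (m : ℤ) ∣ b := by rw [hb]; exact dvd_pow_self _ (by omega)
  have hHm : (m : ℤ) ∣ H - 1 := by
    have e1 : H = ∑ i ∈ Finset.range (d + 1), h.coeff i * b ^ (d - i) * a ^ i := by
      rw [hH, eval_eq_sum_range, natDegree_scaleRoots]
      refine Finset.sum_congr rfl fun i _ => ?_
      rw [coeff_scaleRoots]
    rw [e1, Finset.sum_range_succ, Nat.sub_self, pow_zero, mul_one,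
      show h.coeff d = 1 from hmon.coeff_natDegree, one_mul, add_sub_assoc]
    refine dvd_add (Finset.dvd_sum fun i hi => ?_) ?_
    · have hid : i < d := Finset.mem_range.mp hi
      refine Dvd.dvd.mul_right (Dvd.dvd.mul_left ?_ _) _
      exact hmb.trans (dvd_pow_self _ (by omega))
    · have : (m : ℤ) ∣ a - 1 := ⟨⌊y * b / m⌋, by rw [ha]; ring⟩
      have h2 := sub_dvd_pow_sub_pow a 1 d
      rw [one_pow] at h2
      exact this.trans h2
  set n : ℕ := H.natAbs with hn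
  have hnH : (n : ℤ) = -H := by rw [hn]; omega
  have hn1 : (m : ℤ) ∣ (n : ℤ) + 1 := by
    have : (n : ℤ) + 1 = -(H - 1) := by rw [hnH]; ring
    rw [this]
    exact (dvd_neg).mpr hHm
  have hn4 : n % 4 = 3 := by
    have : (4 : ℤ) ∣ (n : ℤ) + 1 := (show (4 : ℤ) ∣ (m : ℤ) from ⟨N.factorial, by rw [hm]; push_cast; ring⟩).trans hn1
    omega
  obtain ⟨ℓ, hℓ, hℓn, hℓ3⟩ := exists_prime_factor n hn4
  have hℓm : ¬ (ℓ : ℤ) ∣ (m : ℤ) := by
    intro hc
    have h1 : (ℓ : ℤ) ∣ (n : ℤ) + 1 := hc.trans hn1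
    have h2 : (ℓ : ℤ) ∣ (n : ℤ) := by exact_mod_cast hℓn
    have h3 : (ℓ : ℤ) ∣ 1 := by
      have := dvd_sub h1 h2
      simpa using this
    have h4 : ℓ ∣ 1 := by exact_mod_cast h3
    exact hℓ.one_lt.ne' (Nat.dvd_one.mp h4)
  have hℓN : N < ℓ := by
    by_contra hle
    push Not at hle
    apply hℓm
    have : ℓ ∣ N.factorial := Nat.dvd_factorial hℓ.pos hle
    have h2 : ℓ ∣ m := by rw [hm]; exact Dvd.dvd.mul_left this 4
    exact_mod_cast h2
  have : Fact ℓ.Prime := ⟨hℓ⟩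
  have hb0 : ((b : ℤ) : ZMod ℓ) ≠ 0 := by
    intro hc
    rw [ZMod.intCast_zmod_eq_zero_iff_dvd, hb] at hc
    have hpi : Prime (ℓ : ℤ) := Nat.prime_iff_prime_int.mp hℓ
    exact hℓm (hpi.dvd_of_dvd_pow hc)
  refine ⟨ℓ, hℓN, hℓ, hℓ3, (a : ZMod ℓ) * (b : ZMod ℓ)⁻¹, ?_⟩
  have e := scaleRoots_eval₂_mul (p := h) (Int.castRingHom (ZMod ℓ)) ((a : ZMod ℓ) * (b : ZMod ℓ)⁻¹) b
  rw [eq_intCast, mul_comm (a : ZMod ℓ), mul_inv_cancel_left₀ hb0] at e
  have e2 : eval₂ (Int.castRingHom (ZMod ℓ)) (a : ZMod ℓ) (scaleRoots h b) = (H : ZMod ℓ) := by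
    rw [hH, ← eq_intCast (Int.castRingHom (ZMod ℓ)) (eval a (scaleRoots h b)), ← eval₂_at_apply]
    rfl
  have e3 : ((H : ℤ) : ZMod ℓ) = 0 := by
    rw [ZMod.intCast_zmod_eq_zero_iff_dvd]
    have : (ℓ : ℤ) ∣ (n : ℤ) := by exact_mod_cast hℓn
    rw [hnH] at this
    exact (dvd_neg).mp this
  rw [e2, e3] at e
  rw [eval_map, mul_comm (a : ZMod ℓ)]
  rcases mul_eq_zero.mp e.symm with h0 | h0
  · exact absurd h0 (pow_ne_zero _ hb0)
  · exact h0

end Pool.Agent.LibTS
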