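import Mathlib
set_option autoImplicit false
namespace Pool.Agent.LibTS
open Polynomial

theorem exists_prim (Y : Finset ℝ) (hX : ∀ x ∈ Y, IsAlgebraic ℚ x) : ∃ θ : ℝ, IsIntegral ℤ θ ∧
    ∀ x ∈ Y, ∃ D : ℤ, D ≠ 0 ∧ ∃ u : ℤ[X], (D : ℝ) * x = aeval θ u := by
  set L := IntermediateField.adjoin ℚ (Y : Set ℝ) with hL
  have : FiniteDimensional ℚ L :=
    IntermediateField.finiteDimensional_adjoin (S := (Y : Set ℝ)) (fun x hx => (hX x hx).isIntegral)
  obtain ⟨α, hα⟩ := Field.exists_primitive_element ℚ L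
  have hαi : IsIntegral ℚ α := Algebra.IsIntegral.isIntegral α
  have hrep : ∀ x : L, ∃ P : ℚ[X], aeval (α : ℝ) P = (x : ℝ) := by
    intro x
    have h1 : x ∈ IntermediateField.adjoin ℚ {α} := by rw [hα]; trivial
    have h2 : x ∈ (IntermediateField.adjoin ℚ {α}).toSubalgebra := h1
    rw [IntermediateField.adjoin_simple_toSubalgebra_of_isAlgebraic hαi.isAlgebraic,
      Algebra.adjoin_singleton_eq_range_aeval] at h2
    obtain ⟨P, hP⟩ := h2
    refine ⟨P, ?_⟩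
    have : ((aeval α P : L) : ℝ) = aeval (α : ℝ) P := by
      rw [← IntermediateField.algebraMap_apply, ← aeval_algebraMap_apply]
      rfl
    rw [← this]
    exact congrArg Subtype.val hP
  have hαZ : IsAlgebraic ℤ (α : ℝ) := by
    have : IsAlgebraic ℚ (α : ℝ) := (hαi.map L.val).isAlgebraic
    exact (IsFractionRing.isAlgebraic_iff ℤ ℚ ℝ).mpr this
  obtain ⟨y, hy0, hyi⟩ := IsAlgebraic.exists_integral_multiple hαZ
  have hyR : (y : ℝ) ≠ 0 := by exact_mod_cast hy0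
  refine ⟨y • (α : ℝ), hyi, fun x hx => ?_⟩
  obtain ⟨P, hP⟩ := hrep ⟨x, IntermediateField.subset_adjoin ℚ _ hx⟩
  set Q : ℚ[X] := P.comp (C ((y : ℚ)⁻¹) * X) with hQ
  have hQx : aeval (y • (α : ℝ)) Q = x := by
    rw [hQ, aeval_comp, map_mul, aeval_C, aeval_X, zsmul_eq_mul]
    have : (algebraMap ℚ ℝ) ((y : ℚ)⁻¹) * ((y : ℝ) * (α : ℝ)) = (α : ℝ) := by
      rw [map_inv₀, map_intCast, inv_mul_cancel_left₀ hyR]
    rw [this, hP]
  obtain ⟨b, hbm, hb⟩ := IsLocalization.integerNormalization_spec (nonZeroDivisors ℤ) Q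
  refine ⟨b, nonZeroDivisors.ne_zero hbm, IsLocalization.integerNormalization (nonZeroDivisors ℤ) Q, ?_⟩
  have h1 : aeval (y • (α : ℝ)) (IsLocalization.integerNormalization (nonZeroDivisors ℤ) Q) =
      aeval (y • (α : ℝ)) ((IsLocalization.integerNormalization (nonZeroDivisors ℤ) Q).map (algebraMap ℤ ℚ)) := by
    rw [aeval_map_algebraMap]
  rw [h1, hb, map_zsmul, hQx, zsmul_eq_mul]

end Pool.Agent.LibTS
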