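import Pool.Agent.LibTS.Euc
import Pool.Agent.LibTS.Prim
import Pool.Agent.LibTS.Val
set_option autoImplicit false
namespace Pool.Agent.LibTS
open Polynomial ComplexConjugate

theorem exists_int_mult (z : ℂ) (hz : IsIntegral ℤ z) (h0 : z ≠ 0) :
    ∃ C : ℤ, C ≠ 0 ∧ ∃ w : ℂ, IsIntegral ℤ w ∧ z * w = C := by
  have hc : (minpoly ℤ z).coeff 0 ≠ 0 := by
    have h1 := minpoly.coeff_zero_ne_zero (A := ℚ) (x := z) hz.tower_top h0
    rw [minpoly.isIntegrallyClosed_eq_field_fractions' ℚ hz, coeff_map, eq_intCast] at h1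
    exact_mod_cast h1
  refine ⟨(minpoly ℤ z).coeff 0, hc, -aeval z (minpoly ℤ z).divX, ?_, ?_⟩
  · have : aeval z (minpoly ℤ z).divX ∈ (integralClosure ℤ ℂ) := by
      have h1 : z ∈ integralClosure ℤ ℂ := hz
      have h2 := (aeval (⟨z, h1⟩ : integralClosure ℤ ℂ) (minpoly ℤ z).divX).2
      rwa [← Subalgebra.coe_val, ← aeval_algHom_apply] at h2
    exact IsIntegral.neg this
  · have h1 := minpoly.aeval ℤ z
    conv at h1 => rw [← divX_mul_X_add (minpoly ℤ z)]
    rw [map_add, map_mul, aeval_X, aeval_C, eq_intCast] at h1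
    linear_combination -h1

theorem isIntegral_conj {z : ℂ} (hz : IsIntegral ℤ z) : IsIntegral ℤ (conj z) :=
  hz.map (Complex.conjAe.toAlgHom.restrictScalars ℤ)

theorem isIntegral_I : IsIntegral ℤ Complex.I := by
  refine ⟨X ^ 2 + 1, by monicity!, ?_⟩
  simp

theorem ofReal_integral {x : ℝ} (hx : IsIntegral ℤ (x : ℂ)) : IsIntegral ℤ x :=
  (isIntegral_algebraMap_iff (algebraMap ℝ ℂ).injective).mp hx

theorem integral_ofReal {x : ℝ} (hx : IsIntegral ℤ x) : IsIntegral ℤ (x : ℂ) :=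
  hx.algebraMap

theorem isIntegral_sqrt {x : ℝ} (hx : IsIntegral ℤ x) (h0 : 0 ≤ x) : IsIntegral ℤ (Real.sqrt x) := by
  have : IsIntegral ℤ (Real.sqrt x ^ 2) := by rw [Real.sq_sqrt h0]; exact hx
  exact IsIntegral.of_pow (by norm_num) this

theorem isIntegral_norm {z : ℂ} (hz : IsIntegral ℤ z) : IsIntegral ℤ ‖z‖ := by
  have h1 : IsIntegral ℤ (z * conj z) := hz.mul (isIntegral_conj hz)
  rw [Complex.mul_conj] at h1
  have h2 : IsIntegral ℤ (Complex.normSq z) := ofReal_integral h1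
  rw [Complex.normSq_eq_norm_sq] at h2
  exact IsIntegral.of_pow (by norm_num) h2

theorem isIntegral_two_re {z : ℂ} (hz : IsIntegral ℤ z) : IsIntegral ℤ (2 * z.re) := by
  apply ofReal_integral
  have : ((2 * z.re : ℝ) : ℂ) = z + conj z := by
    rw [Complex.add_conj]
  rw [this]
  exact hz.add (isIntegral_conj hz)

theorem isIntegral_two_im {z : ℂ} (hz : IsIntegral ℤ z) : IsIntegral ℤ (2 * z.im) := by
  apply ofReal_integral
  have : ((2 * z.im : ℝ) : ℂ) = -(Complex.I * (z - conj z)) := by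
    rw [Complex.sub_conj]
    push_cast
    linear_combination (2 * (z.im : ℂ)) * Complex.I_sq
  rw [this]
  exact (isIntegral_I.mul (hz.sub (isIntegral_conj hz))).neg

/-- The prime field property of the residues of the real numbers attached to `θ`. -/
theorem res_real {κ : Type*} [Field κ] (ℓ : ℕ) (hℓ : ℓ.Prime) [CharP κ ℓ] (r : κ) (D n : ℤ)
    (hD : ¬ (ℓ : ℤ) ∣ D) (h : (D : κ) * r = n) : r ^ ℓ = r := by
  have : Fact ℓ.Prime := ⟨hℓ⟩
  have hD0 : (D : κ) ≠ 0 := by
    intro hc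
    exact hD ((CharP.intCast_eq_zero_iff κ ℓ D).mp hc)
  have hf : ∀ m : ℤ, (m : κ) ^ ℓ = m := by
    intro m
    have := frobenius_def (R := κ) ℓ (m : κ)
    rw [← this, map_intCast]
  have h1 : (D : κ) * r ^ ℓ = (D : κ) * r := by
    conv_lhs => rw [← hf D]
    rw [← mul_pow, h, hf]
  exact mul_left_cancel₀ hD0 h1

end Pool.Agent.LibTS
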